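import Pool.Agent.Q112.GS.Reduce

/-!
# The Gyárfás–Sumner conjecture for unions of large classes of coherent configurations

For every forest `F` and every `c > 0` there is a function `f` such that `χ(G) ≤ f(ω(G))` for every
finite graph `G` without induced `F` which is a union of classes of a homogeneous coherent
configuration (for example of an association scheme, or of a distance-regular graph) all of whose
classes have valency at least `c` times the degree.  No symmetry is assumed.

Proof.  Let `d` be the degree.  Continuing an arc `z x` by `w` is *light* if `z w` is not an edge and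
`z`, `w` have less than `δ d` common neighbours.  If every arc has many light continuations, then `F`
is embedded (theorem `embed_tree` of the starting library).  Otherwise one arc `z x`, and then every
arc of its class, has almost only heavy continuations.  By double counting (all classes have
comparable valencies) every arc `x y` has many helpers: neighbours `z` of `y`, with `z y` in that
class, which have large codegree with `x` and with almost all neighbours of `y`.  So almost all
neighbours of `y` are in a set of `O(d)` vertices which depends only on `x`, and with the packing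
lemma for graphs of bounded Vapnik–Chervonenkis dimension only on the approximate neighbourhood of
`x`; the rest of the proof is as for arc-transitive graphs (starting file `ArcTransitive`).
-/

set_option autoImplicit false

namespace Pool.Agent.Results.MP_763321_co.CoherentConfigurations

/-- The partition of the ordered pairs of vertices into the classes `cl x y = i` is a homogeneous
coherent configuration (for example an association scheme): the diagonal is one class, reversing
all pairs of a class gives a class, and for all classes `i`, `j` the number of `z` with `x z` in `i`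
and `z y` in `j` depends only on the class of `x y`. -/
structure IsHomogeneousCoherent {V I : Type} (cl : V → V → I) : Prop where
  diag : ∀ x y z, cl x x = cl y z ↔ y = z
  symm : ∀ x y x' y', cl x y = cl x' y' → cl y x = cl y' x'
  count : ∀ x y x' y', cl x y = cl x' y' → ∀ i j,
    {z | cl x z = i ∧ cl z y = j}.ncard = {z | cl x' z = i ∧ cl z y' = j}.ncard

theorem result (m : ℕ) (F : SimpleGraph (Fin m)) (hF : F.IsAcyclic) (c : ℝ) (hc : 0 < c) :
    ∃ f : ℕ → ℕ, ∀ (V I : Type) [Finite V] (cl : V → V → I)
      (G : SimpleGraph V), IsHomogeneousCoherent cl →
      (∀ x y x' y', cl x y = cl x' y' → G.Adj x y → G.Adj x' y') →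
      (∀ x y, G.Adj x y → c * ((G.neighborSet x).ncard : ℝ) ≤ ({z | cl x z = cl x y}.ncard : ℝ)) →
      ¬ F.IsIndContained G → G.chromaticNumber ≤ f G.cliqueNum := by
  classical
  have hcl : ∀ (V : Type) [Finite V] (G : SimpleGraph V), G.CliqueFree (max G.cliqueNum 1 + 1) := by
    intro V _ G
    have : Fintype V := Fintype.ofFinite V
    intro s hs
    have h1 := hs.isClique.card_le_cliqueNum
    rw [hs.card_eq] at h1
    have h2 := le_max_left G.cliqueNum 1
    omega
  set la : ℝ := min c 1 with hla
  have hla0 : 0 < la := lt_min hc one_pos
  have hla1 : la ≤ 1 := min_le_right _ _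
  have hlac : la ≤ c := min_le_left _ _
  choose! C hC using fun k (hk : 1 ≤ k) =>
    Pool.Agent.Q112.GS.coherent_color m F hF k hk la hla0 hla1
  refine ⟨fun k => C (max k 1), ?_⟩
  intro V I _ cl G hcoh hG hval hFG
  have : Fintype V := Fintype.ofFinite V
  have hcoh' : Pool.Agent.Q112.GS.Coh cl :=
    { symm := hcoh.symm
      count := hcoh.count
      homog := fun x y => (hcoh.diag x y y).2 rfl }
  refine (hC (max G.cliqueNum 1) (le_max_right _ _) V I cl G hcoh' hG ?_ (hcl V G)
    ⟨fun e => hFG ⟨e⟩⟩).chromaticNumber_le
  intro a b hab
  have h1 := hval a b hab
  have h2 : ((G.neighborSet a).ncard : ℝ) = ((Pool.Agent.Y394.AT.nb G a).card : ℝ) := by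
    have : (G.neighborSet a) = ((Pool.Agent.Y394.AT.nb G a : Finset V) : Set V) := by
      ext w
      rw [Finset.mem_coe, Pool.Agent.Y394.AT.mem_nb, SimpleGraph.mem_neighborSet]
    rw [this, Set.ncard_coe_finset]
  have h3 : ({z | cl a z = cl a b}.ncard : ℝ) =
      ((Pool.Agent.Q112.GS.outS cl (cl a b) a).card : ℝ) := by
    have : {z | cl a z = cl a b} =
        ((Pool.Agent.Q112.GS.outS cl (cl a b) a : Finset V) : Set V) := by
      ext w
      rw [Finset.mem_coe, Pool.Agent.Q112.GS.mem_outS]
      rfl
    rw [this, Set.ncard_coe_finset]
  rw [h2, h3] at h1
  exact (mul_le_mul_of_nonneg_right hlac (Nat.cast_nonneg _)).trans h1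

end Pool.Agent.Results.MP_763321_co.CoherentConfigurations
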