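import Pool.Agent.Q112.GS.Reduce

/-!
# The Gyárfás–Sumner conjecture for edge-transitive graphs and for graphs with large edge orbits

For every forest `F` and every `c > 0` there is a function `f` such that `χ(G) ≤ f(ω(G))` for every
finite graph `G` without induced `F` in which every orbit of the automorphism group on the edges
contains at least the proportion `c` of all edges; for `c = 1` these are the edge-transitive graphs.

Proof.  Let `d` be the degree.  Continuing an arc `z x` by `w` is *light* if `z w` is not an edge and
`z`, `w` have less than `δ d` common neighbours.  If every arc has many light continuations, then `F`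
is embedded (theorem `embed_tree` of the starting library).  Otherwise one arc `z x`, and then every
arc of its orbit, has almost only heavy continuations.  By double counting (all orbits have
comparable sizes) every arc `x y` has many helpers: neighbours `z` of `y`, with `z y` in that
orbit, which have large codegree with `x` and with almost all neighbours of `y`.  So almost all
neighbours of `y` are in a set of `O(d)` vertices which depends only on `x`, and with the packing
lemma for graphs of bounded Vapnik–Chervonenkis dimension only on the approximate neighbourhood of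
`x`; the rest of the proof is as for arc-transitive graphs (starting file `ArcTransitive`).
-/

set_option autoImplicit false

namespace Pool.Agent.Results.MP_763321_co.ComparableEdgeOrbits

/-- The orbit of `e` under the automorphism group of `G`. -/
def edgeOrbit {V : Type} (G : SimpleGraph V) (e : Sym2 V) : Set (Sym2 V) :=
  {e' | ∃ φ : G ≃g G, e.map φ = e'}

/-- Every orbit of the automorphism group on the edges contains at least the proportion `c` of all
edges. -/
def LargeEdgeOrbits {V : Type} (G : SimpleGraph V) (c : ℝ) : Prop :=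
  ∀ e ∈ G.edgeSet, c * (G.edgeSet.ncard : ℝ) ≤ ((edgeOrbit G e).ncard : ℝ)

theorem result (m : ℕ) (F : SimpleGraph (Fin m)) (hF : F.IsAcyclic) (c : ℝ) (hc : 0 < c) :
    ∃ f : ℕ → ℕ, ∀ (V : Type) [Finite V] (G : SimpleGraph V),
      LargeEdgeOrbits G c → ¬ F.IsIndContained G → G.chromaticNumber ≤ f G.cliqueNum := by
  classical
  have hcl : ∀ (V : Type) [Finite V] (G : SimpleGraph V), G.CliqueFree (max G.cliqueNum 1 + 1) := by
    intro V _ G
    have : Fintype V := Fintype.ofFinite V
    intro s hs
    have h1 := hs.isClique.card_le_cliqueNum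
    rw [hs.card_eq] at h1
    have h2 := le_max_left G.cliqueNum 1
    omega
  set la : ℝ := min (c / 2) 1 with hla
  have hla0 : 0 < la := lt_min (by positivity) one_pos
  have hla1 : la ≤ 1 := min_le_right _ _
  have hlac : la ≤ c / 2 := min_le_left _ _
  choose! C hC using fun k (hk : 1 ≤ k) =>
    Pool.Agent.Q112.GS.orbit_color m F hF k hk la hla0 hla1
  refine ⟨fun k => C (max k 1), ?_⟩
  intro V _ G hL hFG
  have : Fintype V := Fintype.ofFinite V
  refine (hC (max G.cliqueNum 1) (le_max_right _ _) V (G ≃g G) G (fun g u v => g.map_rel_iff)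
    ?_ (hcl V G) ⟨fun e => hFG ⟨e⟩⟩).chromaticNumber_le
  intro a b hab
  have h1 := hL s(a, b) hab
  -- the orbit of the edge is the image of the orbit of the arc
  have h2 : (edgeOrbit G s(a, b)).ncard ≤ (Pool.Agent.Q112.GS.arcOrb (G ≃g G) a b).card := by
    have h3 : edgeOrbit G s(a, b) ⊆ (fun p : V × V => s(p.1, p.2)) ''
        ((Pool.Agent.Q112.GS.arcOrb (G ≃g G) a b : Finset (V × V)) : Set (V × V)) := by
      rintro e ⟨φ, hφ⟩
      rw [Sym2.map_mk] at hφ
      refine ⟨(φ a, φ b), ?_, hφ⟩
      rw [Finset.mem_coe]
      unfold Pool.Agent.Q112.GS.arcOrb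
      exact Finset.mem_filter.2 ⟨Finset.mem_univ _, φ, rfl, rfl⟩
    calc (edgeOrbit G s(a, b)).ncard ≤ ((fun p : V × V => s(p.1, p.2)) ''
          ((Pool.Agent.Q112.GS.arcOrb (G ≃g G) a b : Finset (V × V)) : Set (V × V))).ncard :=
          Set.ncard_le_ncard h3 (Set.toFinite _)
      _ ≤ ((Pool.Agent.Q112.GS.arcOrb (G ≃g G) a b : Finset (V × V)) : Set (V × V)).ncard :=
          Set.ncard_image_le (Set.toFinite _)
      _ = _ := Set.ncard_coe_finset _
  have h4 : (Pool.Agent.Q112.GS.arcs G).card = 2 * G.edgeSet.ncard := by
    have h5 := SimpleGraph.two_mul_card_edgeFinset G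
    have h6 : G.edgeSet.ncard = G.edgeFinset.card := by
      rw [← SimpleGraph.coe_edgeFinset, Set.ncard_coe_finset]
    rw [h6, h5]
    unfold Pool.Agent.Q112.GS.arcs
    congr
  have h2' : ((edgeOrbit G s(a, b)).ncard : ℝ) ≤
      ((Pool.Agent.Q112.GS.arcOrb (G ≃g G) a b).card : ℝ) := by exact_mod_cast h2
  have h4' : ((Pool.Agent.Q112.GS.arcs G).card : ℝ) = 2 * (G.edgeSet.ncard : ℝ) := by
    exact_mod_cast h4
  rw [h4']
  calc la * (2 * (G.edgeSet.ncard : ℝ)) ≤ c / 2 * (2 * (G.edgeSet.ncard : ℝ)) :=
        mul_le_mul_of_nonneg_right hlac (by positivity)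
    _ = c * (G.edgeSet.ncard : ℝ) := by ring
    _ ≤ _ := h1.trans h2'

end Pool.Agent.Results.MP_763321_co.ComparableEdgeOrbits
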