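import Pool.Agent.Q115.DG.Conj

/-!
# The Gyárfás–Sumner conjecture and graphs of large minimum degree

Graphs are finite. `Bounded F k C`: all graphs without induced `F` and without a clique of size
`k + 1` are `C`-colourable. `DenseBounded F k c C`: the same for the graphs `G` all of whose vertices
have at least `c |V(G)|` neighbours.

For a bipartite graph `F` such that `F` and its complement are connected (for example a tree which
is not a star) and for `(j - 1) / j < c < j / (j + 1)`, the graphs without induced `F`, of clique
number at most `k + j` and of minimum degree at least `c n` have bounded chromatic number if and only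
if all graphs without induced `F` and of clique number at most `k` have.

Proof. Graphs without induced `F` and of bounded clique number have bounded VC dimension. If all
degrees are at least `c n`, by the epsilon net theorem (`Pool/Agent/Q115/DG/Net.lean`) boundedly many
neighbourhoods cover the graph; in a neighbourhood the clique number is smaller by one and the
degrees are at least `(2 - 1 / c)` times its size. Conversely, `j` large independent sets are joined
to a given graph and to each other, and to one more independent set.
-/

set_option autoImplicit false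

namespace Pool.Agent.Results.MP_763321_co.DenseGraphs

/-- Every finite graph without induced `F` and without a clique of size `k + 1` is
`C`-colourable. -/
def Bounded {m : ℕ} (F : SimpleGraph (Fin m)) (k C : ℕ) : Prop :=
  ∀ (V : Type) [Fintype V] (G : SimpleGraph V), G.CliqueFree (k + 1) → ¬ F.IsIndContained G →
    G.Colorable C

/-- Every finite graph `G` without induced `F`, without a clique of size `k + 1` and with all
degrees at least `c |V(G)|` is `C`-colourable. -/
def DenseBounded {m : ℕ} (F : SimpleGraph (Fin m)) (k : ℕ) (c : ℝ) (C : ℕ) : Prop :=
  ∀ (V : Type) [Fintype V] (G : SimpleGraph V),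
    (∀ v, c * (Fintype.card V : ℝ) ≤ ((G.neighborSet v).ncard : ℝ)) →
    G.CliqueFree (k + 1) → ¬ F.IsIndContained G → G.Colorable C

/-- (1) and (2): the exact relation between clique numbers `k` in all graphs and `k + j` in graphs of
minimum degree at least `c n`, where `(j - 1) / j < c < j / (j + 1)`. (3) For every `c < 1` the
Gyárfás–Sumner conjecture is equivalent to its restriction to the graphs with minimum degree at
least `c n`. -/
theorem result :
    (∀ (m : ℕ) (F : SimpleGraph (Fin m)), F.IsBipartite → ∀ (k j : ℕ) (c : ℝ),
      (j : ℝ) - 1 < c * j → (∃ C, Bounded F k C) → ∃ C, DenseBounded F (k + j) c C) ∧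
    (∀ (m : ℕ) (F : SimpleGraph (Fin m)), 2 ≤ m → F.Connected → Fᶜ.Connected →
      ∀ (k j : ℕ) (c : ℝ), 1 ≤ k → c * (j + 1) < j →
      (∃ C, DenseBounded F (k + j) c C) → ∃ C, Bounded F k C) ∧
    (∀ c : ℝ, c < 1 →
      ((∀ (m : ℕ) (F : SimpleGraph (Fin m)), F.IsAcyclic → ∀ k, ∃ C, Bounded F k C) ↔
        (∀ (m : ℕ) (F : SimpleGraph (Fin m)), F.IsAcyclic → ∀ k, ∃ C, DenseBounded F k c C))) := by
  refine ⟨?_, ?_, ?_⟩
  · rintro m F hF k j c hc ⟨C, hC⟩
    exact Q115.DG.up F hF k C hC j c hc
  · rintro m F hm hF hFc k j c hk hc ⟨C, hC⟩
    exact ⟨C, Q115.DG.down F hm hF hFc k j c hk hc C hC⟩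
  · intro c hc
    exact Q115.DG.conj c hc

end Pool.Agent.Results.MP_763321_co.DenseGraphs
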