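import Pool.Agent.Q128.GS.Local

/-!
# Gyárfás–Sumner for graphs that are locally Boolean combinations of stable relations

All graphs are finite, `χ` is the chromatic number and `ω` the clique number. Let `F` be a forest.
A relation `R` is called here `n`-stable if there are no `a_1, …, a_n`, `b_1, …, b_n` such that
`R (a_i) (b_j)` holds exactly when `i ≤ j`.

* For all `s` and `n` there is a function `f` such that `χ(G) ≤ c f(ω(G))` for every graph `G` without
  induced `F` and every `c`-colourable graph `P` of exceptional pairs with the following property. For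
  every edge `x y` of `G` that is not exceptional there are `s` relations on the vertices which are
  `n`-stable, and a Boolean function which computes the adjacency in `G` of `u` and `v` from the values
  of the relations at `(u, v)`, for all `u ∈ N(y)`, `v ∈ N(x)`, `u ≠ v`, such that `u v` is not
  exceptional.
* The same with relations such that the relation or its complement contains no complete bipartite
  graph `K_{n,n}`.
* The same with the relations `M u v = 0` for matrices `M` of rank at most `n` over fields.

The relations, the Boolean function, the fields and the matrices may depend on the edge `x y`.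

The proof uses the theorem `Pool.Agent.H367R3.gyarfas_sumner_stable` of the starting library (forests,
bounded clique number, no semi-induced half-graph of bounded order) and lemmas of the starting file
`ZeroPatterns`, of which the third part without exceptional edges is the first part.
-/

set_option autoImplicit false

namespace Pool.Agent.Results.MP_763321_co.LocallyStable

theorem result :
    -- stable relations
    (∀ (m : ℕ) (F : SimpleGraph (Fin m)), F.IsAcyclic → ∀ s n : ℕ, ∃ f : ℕ → ℕ,
      ∀ (V : Type) [Fintype V] (G P : SimpleGraph V) (c : ℕ), P.Colorable c →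
        (∀ x y, G.Adj x y → ¬ P.Adj x y → ∃ (R : Fin s → V → V → Prop) (φ : (Fin s → Prop) → Prop),
          (∀ t, ¬ ∃ a b : Fin n → V, ∀ i j, R t (a i) (b j) ↔ i ≤ j) ∧
          ∀ u v, G.Adj y u → G.Adj x v → u ≠ v → ¬ P.Adj u v →
            (G.Adj u v ↔ φ fun t => R t u v)) →
        ¬ F.IsIndContained G → G.chromaticNumber ≤ (c * f G.cliqueNum : ℕ)) ∧
    -- relations without `K_{n,n}`, and complements of such relations
    (∀ (m : ℕ) (F : SimpleGraph (Fin m)), F.IsAcyclic → ∀ s n : ℕ, ∃ f : ℕ → ℕ,
      ∀ (V : Type) [Fintype V] (G P : SimpleGraph V) (c : ℕ), P.Colorable c →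
        (∀ x y, G.Adj x y → ¬ P.Adj x y → ∃ (R : Fin s → V → V → Prop) (φ : (Fin s → Prop) → Prop),
          (∀ t, (¬ ∃ a b : Fin n → V, Function.Injective a ∧ Function.Injective b ∧
              ∀ i j, R t (a i) (b j)) ∨
            ¬ ∃ a b : Fin n → V, Function.Injective a ∧ Function.Injective b ∧
              ∀ i j, ¬ R t (a i) (b j)) ∧
          ∀ u v, G.Adj y u → G.Adj x v → u ≠ v → ¬ P.Adj u v →
            (G.Adj u v ↔ φ fun t => R t u v)) →
        ¬ F.IsIndContained G → G.chromaticNumber ≤ (c * f G.cliqueNum : ℕ)) ∧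
    -- zero patterns of matrices of bounded rank
    (∀ (m : ℕ) (F : SimpleGraph (Fin m)), F.IsAcyclic → ∀ s n : ℕ, ∃ f : ℕ → ℕ,
      ∀ (V : Type) [Fintype V] (G P : SimpleGraph V) (c : ℕ), P.Colorable c →
        (∀ x y, G.Adj x y → ¬ P.Adj x y → ∃ (K : Fin s → Type) (_ : ∀ t, Field (K t))
          (M : ∀ t, Matrix V V (K t)) (φ : (Fin s → Prop) → Prop), (∀ t, (M t).rank ≤ n) ∧
          ∀ u v, G.Adj y u → G.Adj x v → u ≠ v → ¬ P.Adj u v →
            (G.Adj u v ↔ φ fun t => M t u v = 0)) →
        ¬ F.IsIndContained G → G.chromaticNumber ≤ (c * f G.cliqueNum : ℕ)) := by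
  refine ⟨?_, ?_, ?_⟩
  · intro m F hF s n
    obtain ⟨f, hf⟩ := Pool.Agent.Q128.GS.main_local m s n F hF
    exact ⟨f, fun V _ G P c hP hloc hFG => hf V G P c hP hloc hFG⟩
  · intro m F hF s n
    obtain ⟨f, hf⟩ := Pool.Agent.Q128.GS.main_local m s (2 * n) F hF
    refine ⟨f, fun V _ G P c hP hloc hFG => hf V G P c hP (fun x y hxy hP' => ?_) hFG⟩
    obtain ⟨R, φ, hR, hA⟩ := hloc x y hxy hP'
    refine ⟨R, φ, fun t h => ?_, hA⟩
    rcases hR t with h1 | h1
    · exact h1 (Pool.Agent.Q128.GS.HG.complete h)
    · exact h1 (Pool.Agent.Q128.GS.HG.empty h)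
  · intro m F hF s n
    obtain ⟨f, hf⟩ := Pool.Agent.Q128.GS.main_local m s (n + 2) F hF
    refine ⟨f, fun V _ G P c hP hloc hFG => hf V G P c hP (fun x y hxy hP' => ?_) hFG⟩
    obtain ⟨K, _, M, φ, hM, hA⟩ := hloc x y hxy hP'
    exact ⟨fun t u v => M t u v = 0, φ,
      fun t => Pool.Agent.TH253.GS.zero_stable (M t) n (hM t), hA⟩

end Pool.Agent.Results.MP_763321_co.LocallyStable
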